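import Pool.Agent.Lib.MP_740c08_an.Dual

set_option autoImplicit false

namespace Pool.Agent.Results.MP_740c08_an.NoABS

open Filter Topology Pool.Agent.Lib.MP_740c08_an.Dual

variable (𝕜 : Type) [RCLike 𝕜] (X : Type) [NormedAddCommGroup X] [NormedSpace 𝕜 X]

/-- For some `C > 1`, some equivalent norm `p` is `C`-equivalent to the norm on no closed
infinite-dimensional subspace. -/
def Distortable : Prop :=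
  ∃ C : ℝ, 1 < C ∧ ∃ p : Seminorm 𝕜 X,
    (∃ a b : ℝ, 0 < a ∧ 0 < b ∧ ∀ x, a * ‖x‖ ≤ p x ∧ p x ≤ b * ‖x‖) ∧
    ∀ Y : Submodule 𝕜 X, IsClosed (Y : Set X) → ¬ FiniteDimensional 𝕜 Y →
      ¬ ∃ a : ℝ, 0 < a ∧ ∀ y ∈ Y, a * ‖y‖ ≤ p y ∧ p y ≤ C * a * ‖y‖

/-- `X` admits an asymptotic biorthogonal system. -/
def HasABS : Prop :=
  ∃ (A : ℕ → Set X) (B : ℕ → Set (StrongDual 𝕜 X)) (δ : ℕ → ℝ),
    (∀ n, ∀ x ∈ A n, ‖x‖ = 1) ∧ (∀ n, ∀ f ∈ B n, ‖f‖ ≤ 1) ∧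
    (∀ n, ∀ Z : Submodule 𝕜 X, IsClosed (Z : Set X) → ¬ FiniteDimensional 𝕜 Z →
      ∃ x ∈ A n, x ∈ Z) ∧
    (∀ n, ∀ x ∈ A n, ∃ f ∈ B n, 1 / 2 ≤ ‖f x‖) ∧ Tendsto δ atTop (𝓝 0) ∧
    ∀ n m, n ≠ m → ∀ x ∈ A n, ∀ f ∈ B m, ‖f x‖ ≤ δ (min n m)

/-- There is a distortable Banach space none of whose subspaces admits an asymptotic
biorthogonal system. -/
theorem result (𝕜 : Type) [RCLike 𝕜] :
    ∃ (X : Type) (_ : NormedAddCommGroup X) (_ : NormedSpace 𝕜 X), CompleteSpace X ∧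
      ¬ FiniteDimensional 𝕜 X ∧ Distortable 𝕜 X ∧
      ∀ Y : Submodule 𝕜 X, IsClosed (Y : Set X) → ¬ FiniteDimensional 𝕜 Y → ¬ HasABS 𝕜 Y := by
  obtain ⟨X, _, _, hc, ι, hd, hn⟩ := exists_compl (p1 (𝕜 := 𝕜))
  obtain ⟨p, h1, h2⟩ := distort hd hn
  exact ⟨X, inferInstance, inferInstance, hc, not_finite hn,
    ⟨201 / 200, by norm_num, p, ⟨1 / 2, 1, by norm_num, one_pos, h1⟩, fun Y _ => h2 Y⟩,
    fun Y _ hY ⟨A, B, δ, e1, e2, e3, e4, e5, e6⟩ => no_abs hd hn hY A B δ e1 e2 e3 e4 e5 e6⟩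

end Pool.Agent.Results.MP_740c08_an.NoABS
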