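import Pool.Agent.Lib.MP_740c08_an.TsMain

set_option autoImplicit false

namespace Pool.Agent.Results.MP_740c08_an.TsirelsonABS

open Pool.Agent.Lib.MP_740c08_an

universe u

/-- The Tsirelson space (which exists, over the real or complex scalars) admits an asymptotic
biorthogonal system. -/
theorem result (𝕜 : Type) [RCLike 𝕜] :
    (∃ (X : Type) (_ : NormedAddCommGroup X) (_ : NormedSpace 𝕜 X) (_ : CompleteSpace X)
      (ι : (ℕ+ →₀ 𝕜) →ₗ[𝕜] X), IsTsirelson 𝕜 ι) ∧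
    ∀ (X : Type u) [NormedAddCommGroup X] [NormedSpace 𝕜 X] [CompleteSpace X]
      (ι : (ℕ+ →₀ 𝕜) →ₗ[𝕜] X), IsTsirelson 𝕜 ι →
      ∃ (A : ℕ → Set X) (A' : ℕ → Set (StrongDual 𝕜 X)), IsABS 𝕜 A A' :=
  ⟨exists_tsirelson 𝕜, fun _ _ _ _ _ h => abs_of_tsirelson h⟩

end Pool.Agent.Results.MP_740c08_an.TsirelsonABS
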